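import Mathlib

/-! Sunflowerable structures: a complete classification by the set of allowed sizes. -/

set_option autoImplicit false

namespace Pool.Agent.Results.MP_615e1a_lc.Classification

open FirstOrder FirstOrder.Language Cardinal Function

universe u v w

/-- Every structure isomorphic to `M` whose elements are finite sets with sizes in `K` has a
substructure isomorphic to it whose elements form a sunflower. (`n`-sunflowerable: `K = {n}`.) -/
def Sunf (L : FirstOrder.Language.{u, v}) (M : Type w) [L.Structure M] (K : Set ℕ) : Prop :=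
  ∀ (X : Type w) (Y : Set (Finset X)) [L.Structure Y], (∀ y ∈ Y, y.card ∈ K) →
    Nonempty (Y ≃[L] M) → ∃ Z : L.Substructure Y, Nonempty (Z ≃[L] Y) ∧
      ∃ r : Set X, ∀ p ∈ Z, ∀ q ∈ Z, p ≠ q → (p.1 : Set X) ∩ (q.1 : Set X) = r

/-- The canonical partition property: every function on `M` is constant or injective on the
underlying set of some substructure isomorphic to `M`. -/
def Canonical (L : FirstOrder.Language.{u, v}) (M : Type w) [L.Structure M] : Prop :=
  ∀ (X : Type w) (f : M → X), ∃ Z : L.Substructure M, Nonempty (Z ≃[L] M) ∧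
    ((∀ a ∈ Z, ∀ b ∈ Z, f a = f b) ∨ ∀ a ∈ Z, ∀ b ∈ Z, f a = f b → a = b)

variable {L : FirstOrder.Language.{u, v}} {M : Type w} [L.Structure M]

lemma can_iff : Canonical L M ↔ ∀ (X : Type w) (f : M → X), ∃ e : M ↪[L] M,
    (∀ a b, f (e a) = f (e b)) ∨ Injective fun a => f (e a) := by
  refine forall_congr' fun X => forall_congr' fun f => ⟨?_, ?_⟩
  · rintro ⟨Z, ⟨φ⟩, h⟩
    refine ⟨Z.subtype.comp φ.symm.toEmbedding, h.imp (fun h a b => ?_) fun h a b e => ?_⟩
    · exact h _ (φ.symm a).2 _ (φ.symm b).2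
    · exact φ.symm.injective (Subtype.ext (h _ (φ.symm a).2 _ (φ.symm b).2 e))
  · rintro ⟨e, h⟩
    refine ⟨e.toHom.range, ⟨e.equivRange.symm⟩, h.imp (fun h => ?_) fun h => ?_⟩
    · rintro _ ⟨a, rfl⟩ _ ⟨b, rfl⟩
      exact h a b
    · rintro _ ⟨a, rfl⟩ _ ⟨b, rfl⟩ z
      exact congrArg e (h z)

lemma sunf_iff {K : Set ℕ} : Sunf L M K ↔ ∀ (X : Type w) (F : M → Finset X), Injective F →
    (∀ a, (F a).card ∈ K) → ∃ (e : M ↪[L] M) (r : Set X),
      ∀ a b, a ≠ b → (F (e a) : Set X) ∩ (F (e b) : Set X) = r := by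
  classical
  constructor
  · intro h X F hF hK
    let e0 : M ≃ Set.range F := Equiv.ofInjective F hF
    let S : L.Structure (Set.range F) := e0.inducedStructure
    let e : M ≃[L] Set.range F := e0.inducedStructureEquiv
    obtain ⟨Z, ⟨φ⟩, r, hr⟩ := h X (Set.range F) (by rintro _ ⟨x, rfl⟩; exact hK x) ⟨e.symm⟩
    let g : M ↪[L] M :=
      e.symm.toEmbedding.comp (Z.subtype.comp (φ.symm.toEmbedding.comp e.toEmbedding))
    have hg : ∀ x, F (g x) = ((φ.symm (e x) : Set.range F) : Finset X) := by
      intro x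
      have h1 : e (g x) = (φ.symm (e x) : Set.range F) := by
        simp [g]
      rw [← h1]
      rfl
    refine ⟨g, r, fun x y hxy => ?_⟩
    rw [hg, hg]
    exact hr _ (φ.symm (e x)).2 _ (φ.symm (e y)).2 fun z =>
      hxy (e.injective (φ.symm.injective (Subtype.ext z)))
  · rintro h X Y _ hY ⟨ψ⟩
    obtain ⟨g, r, hr⟩ := h X (fun m => ((ψ.symm m : Y) : Finset X))
      (fun x y hxy => ψ.symm.injective (Subtype.ext hxy)) (fun x => hY _ (ψ.symm x).2)
    let f : Y ↪[L] Y := ψ.symm.toEmbedding.comp (g.comp ψ.toEmbedding)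
    refine ⟨f.toHom.range, ⟨f.equivRange.symm⟩, r, ?_⟩
    rintro _ ⟨x, rfl⟩ _ ⟨y, rfl⟩ hxy
    have hne : ψ x ≠ ψ y := by
      intro h'
      apply hxy
      have : x = y := ψ.injective h'
      rw [this]
    exact hr _ _ hne

/-- a well-founded two-colouring -/
lemma two {X : Type w} {M : Type w} [LinearOrder X] [WellFoundedLT X] (s t : M → X)
    (hst : ∀ a, s a < t a) (ht : Injective t) : ∃ col : X → Bool, ∀ a, col (t a) = !col (s a) := by
  classical
  let step : (x : X) → ((y : X) → y < x → Bool) → Bool := fun x ih =>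
    if h : ∃ a, t a = x then !(ih (s h.choose) (by
      have := hst h.choose
      rwa [h.choose_spec] at this)) else false
  let col : X → Bool := (wellFounded_lt (α := X)).fix step
  refine ⟨col, fun a => ?_⟩
  have h : ∃ b, t b = t a := ⟨a, rfl⟩
  have h1 : col (t a) = step (t a) fun y _ => col y := (wellFounded_lt (α := X)).fix_eq step (t a)
  rw [h1]
  change (if h : ∃ b, t b = t a then !(col (s h.choose)) else false) = _
  rw [dif_pos h, ht h.choose_spec]

lemma const_of_finite [Infinite M] (h : Canonical L M) {B : Type w} [Finite B] (f : M → B) :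
    ∃ e : M ↪[L] M, ∀ a b, f (e a) = f (e b) := by
  obtain ⟨e, h | h⟩ := can_iff.1 h B f
  · exact ⟨e, h⟩
  · exact absurd (Finite.of_injective _ h) (not_finite_iff_infinite.2 inferInstance)

lemma finset_step {ι : Type} (P : ι → (M ↪[L] M) → Prop)
    (h1 : ∀ i (e : M ↪[L] M), ∃ d : M ↪[L] M, P i (e.comp d))
    (h2 : ∀ i (e d : M ↪[L] M), P i e → P i (e.comp d)) (s : Finset ι) :
    ∃ e, ∀ i ∈ s, P i e := by
  classical
  induction s using Finset.induction_on with
  | empty => exact ⟨Embedding.refl L M, by simp⟩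
  | insert j s _ ih =>
    obtain ⟨e, he⟩ := ih
    obtain ⟨d, hd⟩ := h1 j e
    refine ⟨e.comp d, fun i hi => ?_⟩
    rcases Finset.mem_insert.1 hi with rfl | hi
    · exact hd
    · exact h2 _ _ _ (he i hi)

/-- the canonical property gives sunflowers for sets of size `n` -/
lemma main [Infinite M] (h : Canonical L M) (n : ℕ) {X : Type w} (F : M → Finset X)
    (hn : ∀ a, (F a).card = n) : ∃ (e : M ↪[L] M) (r : Set X),
      ∀ a b, a ≠ b → (F (e a) : Set X) ∩ (F (e b) : Set X) = r := by
  classical
  obtain ⟨_, _⟩ := exists_wellFoundedLT X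
  let c : M → Fin n ↪o X := fun a => (F a).orderEmbOfFin (hn a)
  have hc : ∀ a, Set.range (c a) = (F a : Set X) := fun a => Finset.range_orderEmbOfFin _ _
  -- each coordinate is constant or injective
  obtain ⟨e, he⟩ := finset_step (L := L) (M := M) (ι := Fin n)
    (fun i e => (∀ a b, c (e a) i = c (e b) i) ∨ Injective fun a => c (e a) i)
    (fun i e => can_iff.1 h X fun a => c (e a) i)
    (fun i e d h => h.imp (fun h a b => h _ _) fun h => h.comp d.injective) Finset.univ
  -- different injective coordinates are separated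
  obtain ⟨d, hd⟩ := finset_step (L := L) (M := M) (ι := Fin n × Fin n)
    (fun p d => p.1 < p.2 → Injective (fun a => c (e a) p.2) →
      ∀ a b, c (e (d a)) p.2 ≠ c (e (d b)) p.1)
    (fun p d => by
      by_cases hp : p.1 < p.2 ∧ Injective (fun a => c (e a) p.2)
      · obtain ⟨col, hcol⟩ := two (fun a => c (e (d a)) p.1) (fun a => c (e (d a)) p.2)
          (fun a => (c _).strictMono hp.1) (hp.2.comp d.injective)
        obtain ⟨d', hd'⟩ := const_of_finite h (B := ULift Bool)
          fun a => ULift.up (col (c (e (d a)) p.2))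
        refine ⟨d', fun _ _ a b z => ?_⟩
        have h1 := congrArg ULift.down (hd' a b)
        simp only at h1
        have h2 := hcol (d' b)
        change c (e (d (d' a))) p.2 = c (e (d (d' b))) p.1 at z
        rw [z] at h1
        rw [← h1] at h2
        cases hcc : col (c (e (d (d' b))) p.1) <;> simp [hcc] at h2
      · exact ⟨Embedding.refl L M, fun h1 h2 => absurd ⟨h1, h2⟩ hp⟩)
    (fun p d d' h h1 h2 a b => h h1 h2 _ _) Finset.univ
  refine ⟨e.comp d, {x | ∃ i, ∀ a, c (e a) i = x}, fun a b hab => ?_⟩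
  have hab' : d a ≠ d b := fun z => hab (d.injective z)
  change (F (e (d a)) : Set X) ∩ (F (e (d b))) = _
  rw [← hc, ← hc]
  ext x
  refine ⟨fun ⟨⟨i, s⟩, j, t⟩ => ?_, fun ⟨i, s⟩ => ⟨⟨i, s _⟩, i, s _⟩⟩
  rcases he i (Finset.mem_univ _) with hi | hi
  · exact ⟨i, fun z => by rw [hi z (d a), s]⟩
  rcases he j (Finset.mem_univ _) with hj | hj
  · exact ⟨j, fun z => by rw [hj z (d b), t]⟩
  exfalso
  rcases lt_trichotomy i j with l | l | l
  · exact hd (i, j) (Finset.mem_univ _) l hj b a (t.trans s.symm)
  · subst l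
    exact hab' (hi (s.trans t.symm))
  · exact hd (j, i) (Finset.mem_univ _) l hi a b (s.trans t.symm)

lemma mono {K K' : Set ℕ} (h : K ⊆ K') (hK : Sunf L M K') : Sunf L M K :=
  fun X Y _ hY e => hK X Y (fun y hy => h (hY y hy)) e

/-- canonical, and few sizes or an uncountable structure -/
lemma sunf_of [Infinite M] (h : Canonical L M) {K : Set ℕ} (hK : K.Finite ∨ Uncountable M) :
    Sunf L M K := by
  rw [sunf_iff]
  intro X F hF hc
  have : ∃ e : M ↪[L] M, ∀ a b, (F (e a)).card = (F (e b)).card := by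
    obtain ⟨e, h | h⟩ := can_iff.1 h (ULift.{w} ℕ) fun a => ULift.up (F a).card
    · exact ⟨e, fun a b => congrArg ULift.down (h a b)⟩
    · exfalso
      have hinj : Injective fun a => (F (e a)).card := fun a b z => h (congrArg ULift.up z)
      rcases hK with hK | hK
      · have : Finite K := hK
        exact not_finite_iff_infinite.2 (inferInstanceAs (Infinite M))
          (Finite.of_injective (fun a => (⟨_, hc (e a)⟩ : K)) fun a b z =>
            hinj (congrArg Subtype.val z))
      · exact not_countable_iff.2 hK hinj.countable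
  obtain ⟨e, he⟩ := this
  obtain ⟨a₀⟩ : Nonempty M := inferInstance
  obtain ⟨d, r, hr⟩ := main h (F (e a₀)).card (fun a => F (e a)) (fun a => he a a₀)
  exact ⟨e.comp d, r, hr⟩

/-- one size at least two is enough -/
lemma can_of [Infinite M] {n : ℕ} (hn : 2 ≤ n) (h : Sunf L M {n}) : Canonical L M := by
  classical
  rw [can_iff]
  intro X f
  obtain ⟨m, rfl⟩ : ∃ m, n = m + 2 := ⟨n - 2, by omega⟩
  let F : M → Finset (Option X ⊕ (M ⊕ Fin m)) := fun a =>
    insert (.inl (some (f a))) (insert (.inr (.inl a))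
      (Finset.univ.image fun k => Sum.inr (Sum.inr k)))
  have hmem : ∀ a x, x ∈ F a ↔ x = .inl (some (f a)) ∨ x = .inr (.inl a) ∨
      ∃ k, .inr (.inr k) = x := fun a x => by simp [F]
  have hF : Injective F := by
    intro a b z
    have := (hmem a (.inr (.inl a))).2 (by simp)
    rw [z, hmem] at this
    simpa using this
  have hcard : ∀ a, (F a).card ∈ ({m + 2} : Set ℕ) := by
    intro a
    simp only [F, Set.mem_singleton_iff]
    rw [Finset.card_insert_of_notMem (by simp), Finset.card_insert_of_notMem (by simp),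
      Finset.card_image_of_injective _ (fun x y z => by simpa using z)]
    simp
  obtain ⟨e, r, hr⟩ := sunf_iff.1 h _ F hF hcard
  refine ⟨e, or_iff_not_imp_right.2 fun hinj => ?_⟩
  have : ∃ a b, f (e a) = f (e b) ∧ a ≠ b := by
    by_contra hn
    push Not at hn
    exact hinj fun a b z => hn a b z
  obtain ⟨a, b, hab, hne⟩ := this
  have m1 : Sum.inl (some (f (e a))) ∈ r := by
    rw [← hr a b hne]
    refine ⟨(hmem _ _).2 (.inl rfl), (hmem _ _).2 (.inl ?_)⟩
    rw [hab]
  have key : ∀ c, f (e c) = f (e a) := by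
    intro c
    by_cases q : c = a
    · rw [q]
    · rw [← hr c a q] at m1
      have := (hmem _ _).1 m1.1
      simpa [eq_comm] using this
  exact fun c c' => (key c).trans (key c').symm

/-- chains of initial segments contain no sunflower -/
lemma not_sunf [Infinite M] [Countable M] {K : Set ℕ} (hK : K.Infinite) : ¬ Sunf L M K := by
  classical
  intro h
  rw [sunf_iff] at h
  obtain ⟨_⟩ := nonempty_denumerable M
  let g := Denumerable.eqv M
  let k := Nat.nth (· ∈ K)
  have hk : StrictMono k := Nat.nth_strictMono hK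
  have hkK : ∀ n, k n ∈ K := fun n => Nat.nth_mem_of_infinite hK n
  let F : M → Finset M := fun a => (Finset.range (k (g a))).map g.symm.toEmbedding
  have hc : ∀ a, (F a).card = k (g a) := fun a => by simp [F]
  have hsub : ∀ a b, g a ≤ g b → F a ⊆ F b := fun a b hab =>
    Finset.map_subset_map.2 (Finset.range_mono (hk.monotone hab))
  have hF : Injective F := by
    intro a b z
    have := congrArg Finset.card z
    rw [hc, hc] at this
    exact g.injective (hk.injective this)
  obtain ⟨e, r, hr⟩ := h M F hF (fun a => by rw [hc]; exact hkK _)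
  -- three different elements
  have key : ∀ a b, g (e a) < g (e b) → (F (e a) : Set M) = r := by
    intro a b hab
    rw [← hr a b (by rintro rfl; exact lt_irrefl _ hab)]
    exact (Set.inter_eq_left.2 (by exact_mod_cast hsub _ _ hab.le)).symm
  have hinf : ∀ a : M, ∃ b, g (e a) < g (e b) := by
    intro a
    by_contra hn
    push Not at hn
    have : Finite M := Finite.of_injective
      (fun b => (⟨g (e b), Nat.lt_succ_of_le (hn b)⟩ : Fin (g (e a) + 1))) fun x y z =>
        e.injective (g.injective (congrArg Fin.val z))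
    exact not_finite M
  obtain ⟨a⟩ : Nonempty M := inferInstance
  obtain ⟨b, hb⟩ := hinf a
  obtain ⟨c, hc'⟩ := hinf b
  have h1 := (key a b hb).trans (key b c hc').symm
  have := hF (Finset.coe_injective h1)
  rw [this] at hb
  exact lt_irrefl _ hb

/-- such a structure has regular cardinality -/
lemma regular [Infinite M] (h : Canonical L M) : (#M).IsRegular := by
  refine ⟨aleph0_le_mk M, ?_⟩
  by_contra hlt
  push Not at hlt
  obtain ⟨_, _, ho⟩ := exists_ord_eq_type_lt M
  obtain ⟨s, hs, hcard⟩ := Order.exists_cof_eq M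
  rw [← Ordinal.cof_type, ← ho] at hcard
  choose f hf hf' using hs
  obtain ⟨e, h | h⟩ := can_iff.1 h M f
  · obtain ⟨a⟩ : Nonempty M := inferInstance
    have h1 : ∀ b, e b ≤ f (e a) := fun b => (hf' (e b)).trans (h b a).le
    have h2 : #M ≤ #(Set.Iic (f (e a))) :=
      mk_le_of_injective (f := fun b => (⟨e b, h1 b⟩ : Set.Iic (f (e a))))
        fun x y z => e.injective (congrArg Subtype.val z)
    have h3 : #(Set.Iio (f (e a))) < #M := mk_Iio_lt _ ho
    have h4 : #(Set.Iic (f (e a))) < #M := by
      rw [← Set.Iio_insert]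
      exact (mk_insert_le).trans_lt (add_lt_of_lt (aleph0_le_mk M) h3
        (one_lt_aleph0.trans_le (aleph0_le_mk M)))
    exact absurd h2 (not_le.2 h4)
  · have h1 : #M ≤ #s := mk_le_of_injective (f := fun b => (⟨f (e b), hf _⟩ : s))
      fun x y z => h (congrArg Subtype.val z)
    exact absurd (h1.trans hcard.le) (not_le.2 hlt)

/-- a pure set of regular cardinality has the canonical property -/
lemma pure_set {M : Type w} [Language.empty.Structure M] (h : (#M).IsRegular) :
    Canonical Language.empty M := by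
  classical
  rw [can_iff]
  intro X f
  have emb : ∀ g : M → M, Injective g → ∃ e : M ↪[Language.empty] M, ⇑e = g := fun g hg =>
    ⟨⟨⟨g, hg⟩, fun {n} f => isEmptyElim f, fun {n} r => isEmptyElim r⟩, rfl⟩
  let f' : M → Set.range f := fun a => ⟨f a, a, rfl⟩
  by_cases hlt : #(Set.range f) < #M
  · obtain ⟨x, hx⟩ := infinite_pigeonhole f' h.1 (by rwa [h.cof_ord])
    obtain ⟨g⟩ := Cardinal.eq.1 hx.symm
    obtain ⟨e, he⟩ := emb (fun a => (g a : M)) (Subtype.val_injective.comp g.injective)
    refine ⟨e, .inl fun a b => ?_⟩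
    have h1 : ∀ a, f (e a) = x.1 := fun a => by
      rw [he]
      exact congrArg Subtype.val (g a).2
    rw [h1, h1]
  · obtain ⟨g⟩ := (Cardinal.le_def _ _).1 (not_lt.1 hlt)
    choose t ht using fun y : Set.range f => y.2
    obtain ⟨e, he⟩ := emb (fun a => t (g a)) fun a b z => g.injective (Subtype.ext (by
      rw [← ht, ← ht]
      exact congrArg f z))
    refine ⟨e, .inr fun a b z => ?_⟩
    simp only [he, ht] at z
    exact g.injective (Subtype.ext z)

/-- **Classification of sunflowerable structures.** Let `M` be an infinite `L`-structure, `L` any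
first order language, and `K` a set of sizes. -/
theorem result (L : FirstOrder.Language.{u, v}) (M : Type w) [L.Structure M] [Infinite M] :
    -- 2-sunflowerable, n-sunflowerable for some n ≥ 2, for all n, and the canonical property
    (List.TFAE [Sunf L M {2}, ∃ n ≥ 2, Sunf L M {n}, ∀ n, Sunf L M {n}, ∀ n, Sunf L M {k | k ≤ n},
      Canonical L M]) ∧
    -- all sets of sizes
    (∀ K : Set ℕ, K ⊆ {0, 1} → Sunf L M K) ∧
    (∀ K : Set ℕ, ¬ K ⊆ {0, 1} → (Sunf L M K ↔ Canonical L M ∧ (K.Finite ∨ Uncountable M))) ∧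
    -- the cardinality is regular, and for pure sets this is the exact condition
    (Canonical L M → (#M).IsRegular) ∧
    (∀ (S : Type w) [Language.empty.Structure S] [Infinite S],
      Canonical Language.empty S ↔ (#S).IsRegular) := by
  have h01 : ∀ K : Set ℕ, K ⊆ {0, 1} → Sunf L M K := by
    intro K hK X Y _ hY _
    refine ⟨⊤, ⟨Substructure.topEquiv⟩, ∅, fun p _ q _ hpq => ?_⟩
    rw [Set.eq_empty_iff_forall_notMem]
    rintro x ⟨h1, h2⟩
    apply hpq
    have g : ∀ s ∈ Y, x ∈ s → s = {x} := by
      intro s hs hx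
      rcases hK (hY s hs) with h | h
      · rw [Finset.card_eq_zero.1 h] at hx
        exact absurd hx (Finset.notMem_empty x)
      · obtain ⟨y, rfl⟩ := Finset.card_eq_one.1 h
        rw [Finset.mem_singleton.1 hx]
    exact Subtype.ext ((g _ p.2 h1).trans (g _ q.2 h2).symm)
  have hbig : ∀ K : Set ℕ, ¬ K ⊆ {0, 1} → ∃ n ≥ 2, n ∈ K := by
    intro K hK
    obtain ⟨n, hn, h⟩ := Set.not_subset.1 hK
    refine ⟨n, ?_, hn⟩
    simp only [Set.mem_insert_iff, Set.mem_singleton_iff, not_or] at h
    omega
  refine ⟨?_, h01, fun K hK => ⟨fun h => ?_, fun h => sunf_of h.1 h.2⟩, regular,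
    fun S _ _ => ⟨regular, pure_set⟩⟩
  · tfae_have 1 → 5 := can_of le_rfl
    tfae_have 2 → 5 := fun ⟨n, hn, h⟩ => can_of hn h
    tfae_have 5 → 4 := fun h n => sunf_of h (.inl (Set.finite_Iic n))
    tfae_have 4 → 3 := fun h n => mono (by simp) (h n)
    tfae_have 3 → 2 := fun h => ⟨2, le_rfl, h 2⟩
    tfae_have 3 → 1 := fun h => h 2
    tfae_finish
  · obtain ⟨n, hn, hnK⟩ := hbig K hK
    refine ⟨can_of hn (mono (by simpa using hnK) h), ?_⟩
    by_contra hc
    push Not at hc
    obtain ⟨h1, h2⟩ := hc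
    exact not_sunf h1 h

end Pool.Agent.Results.MP_615e1a_lc.Classification
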